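import Pool.Agent.helper22.RG9.Spec
import Mathlib.RingTheory.Noetherian.Nilpotent

/-! Row NCM of project rg9 (MP_a2a22c_al): commuting nilpotent matrices. -/

set_option autoImplicit false

namespace Pool.Agent.RG9

open Matrix Pool.Agent.H48SL Pool.Agent.UG

theorem NCM_aux (R A : Type) [CommRing R] [Algebra ℚ R] [FiniteDimensional ℚ R] [Ring A] [Algebra ℚ A] (f : R →ₐ[ℚ] A)
    (S : Set A) (hS : ∀ X ∈ S, ∃ Y : R, IsNilpotent Y ∧ f Y = X) :
    ∃ N : ℕ, ∀ l : List A, (∀ X ∈ l, X ∈ Submodule.span ℚ S) → N ≤ l.length → l.prod = 0 := by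
  have hno : IsNoetherianRing R := isNoetherian_of_tower ℚ inferInstance
  obtain ⟨N, hN⟩ := IsNoetherianRing.isNilpotent_nilradical R
  have hmem : ∀ X ∈ Submodule.span ℚ S, ∃ Y : R, Y ∈ nilradical R ∧ f Y = X := by
    intro X hX
    induction hX using Submodule.span_induction with
    | mem X hX =>
      obtain ⟨Y, h1, h2⟩ := hS X hX
      exact ⟨Y, mem_nilradical.2 h1, h2⟩
    | zero => exact ⟨0, zero_mem _, map_zero f⟩
    | add X X' _ _ h1 h2 =>
      obtain ⟨Y, h3, h4⟩ := h1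
      obtain ⟨Y', h3', h4'⟩ := h2
      exact ⟨Y + Y', add_mem h3 h3', by rw [map_add, h4, h4']⟩
    | smul c X _ h =>
      obtain ⟨Y, h3, h4⟩ := h
      refine ⟨c • Y, ?_, by rw [map_smul, h4]⟩
      rw [Algebra.smul_def]
      exact Ideal.mul_mem_left _ _ h3
  have hl : ∀ l : List A, (∀ X ∈ l, X ∈ Submodule.span ℚ S) → ∃ Y : R, Y ∈ nilradical R ^ l.length ∧ f Y = l.prod := by
    intro l
    induction l with
    | nil =>
      intro _
      refine ⟨1, ?_, ?_⟩
      · rw [List.length_nil, pow_zero, Ideal.one_eq_top]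
        exact Submodule.mem_top
      · rw [map_one, List.prod_nil]
    | cons X l ih =>
      intro h
      obtain ⟨Y, h1, h2⟩ := hmem X (h X List.mem_cons_self)
      obtain ⟨Y', h1', h2'⟩ := ih fun Z hZ => h Z (List.mem_cons_of_mem _ hZ)
      refine ⟨Y * Y', ?_, ?_⟩
      · rw [List.length_cons, pow_succ']
        exact Ideal.mul_mem_mul h1 h1'
      · rw [map_mul, h2, h2', List.prod_cons]
  refine ⟨N, fun l h1 h2 => ?_⟩
  obtain ⟨Y, h3, h4⟩ := hl l h1
  have h5 : Y ∈ nilradical R ^ N := Ideal.pow_le_pow_right h2 h3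
  rw [hN] at h5
  have h6 : Y = 0 := h5
  rw [← h4, h6, map_zero]

theorem NCM : NCM_stmt := by
  intro n S hc hn
  have hcomm : ∀ x y : Algebra.adjoin ℚ S, x * y = y * x := by
    have h := Algebra.isMulCommutative_adjoin ℚ hc
    exact fun x y => mul_comm' x y
  letI : CommRing (Algebra.adjoin ℚ S) := { (inferInstance : Ring (Algebra.adjoin ℚ S)) with mul_comm := hcomm }
  have hfd : FiniteDimensional ℚ (Algebra.adjoin ℚ S) :=
    inferInstanceAs (FiniteDimensional ℚ (Subalgebra.toSubmodule (Algebra.adjoin ℚ S)))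
  refine NCM_aux (Algebra.adjoin ℚ S) (MQ n) (Algebra.adjoin ℚ S).val S fun X hX => ?_
  refine ⟨⟨X, Algebra.subset_adjoin hX⟩, ?_, rfl⟩
  obtain ⟨k, hk⟩ := hn X hX
  refine ⟨k, ?_⟩
  apply Subtype.ext
  exact hk

end Pool.Agent.RG9
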